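import Mathlib

set_option autoImplicit false

namespace Pool.Agent.Results.MP_7c4268_al.TorsionQuotient

/-- The subgroup of the free abelian group `F_S = (S →₀ ℤ)` on a set `S` of unordered pairs of
elements of the (additively written) abelian group `G` that is generated by the relations
`{h,k} + {g,h+k} - {g,h} - {g+h,k}` all of whose four pairs belong to `S`. -/
noncomputable def RelSubgroup {G : Type} [AddCommGroup G] (S : Set (Sym2 G)) : AddSubgroup (S →₀ ℤ) :=
  AddSubgroup.closure {x | ∃ (g h k : G) (h₁ : s(h, k) ∈ S) (h₂ : s(g, h + k) ∈ S)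
    (h₃ : s(g, h) ∈ S) (h₄ : s(g + h, k) ∈ S),
    x = Finsupp.single (⟨s(h, k), h₁⟩ : S) (1 : ℤ) + Finsupp.single (⟨s(g, h + k), h₂⟩ : S) 1
      - Finsupp.single (⟨s(g, h), h₃⟩ : S) 1 - Finsupp.single (⟨s(g + h, k), h₄⟩ : S) 1}

/-- incidence table of the set of pairs (bit `b` of entry `a`) -/
def rowM : ℕ → ℕ
  | 0 => 32 | 1 => 2608 | 2 => 1632 | 3 => 1136 | 4 => 554 | 5 => 319
  | 6 => 2188 | 7 => 1088 | 8 => 32 | 9 => 2582 | 10 => 140 | 11 => 578 | _ => 0

/-- table of the character modulo two -/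
def rowW : ℕ → ℕ
  | 1 => 2592 | 4 => 32 | 5 => 18 | 9 => 2 | 11 => 2 | _ => 0

def M (a b : ZMod 12) : Bool := Nat.testBit (rowM a.val) b.val
def W (a b : ZMod 12) : Bool := Nat.testBit (rowW a.val) b.val

lemma M_symm : ∀ a b : ZMod 12, M a b = M b a := by decide
lemma W_symm : ∀ a b : ZMod 12, W a b = W b a := by decide

/-- value of the character modulo two on a pair -/
def w2 (a b : ZMod 12) : ZMod 2 := if W a b then 1 else 0

lemma check : ∀ g h k : ZMod 12, M h k = true → M g (h + k) = true → M g h = true →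
    M (g + h) k = true → w2 h k + w2 g (h + k) - w2 g h - w2 (g + h) k = 0 := by decide

def SS : Set (Sym2 (ZMod 12)) := Sym2.fromRel (r := fun a b => M a b = true)
  ⟨fun a b h => by rw [M_symm]; exact h⟩

lemma mem_SS (a b : ZMod 12) : s(a, b) ∈ SS ↔ M a b = true := Iff.rfl

def wS : Sym2 (ZMod 12) → ZMod 2 := Sym2.lift ⟨w2, fun a b => by unfold w2; rw [W_symm]⟩

lemma wS_mk (a b : ZMod 12) : wS s(a, b) = w2 a b := rfl

/-- the character modulo two on `F_S` -/
noncomputable def psi : (SS →₀ ℤ) →+ ZMod 2 :=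
  Finsupp.liftAddHom fun s : SS => (Int.castAddHom (ZMod 2)).comp
    ((AddMonoidHom.mulLeft ((if wS s.1 = 1 then 1 else 0 : ℤ))))

lemma psi_single (s : SS) : psi (Finsupp.single s 1) = wS s.1 := by
  unfold psi
  rw [Finsupp.liftAddHom_apply_single]
  have h2 : ∀ t : ZMod 2, t = 1 ∨ t = 0 := by decide
  rcases h2 (wS s.1) with h | h
  · simp [h]
  · simp [h]

lemma psi_rel (z : SS →₀ ℤ) (hz : z ∈ RelSubgroup SS) : psi z = 0 := by
  have hle : RelSubgroup SS ≤ psi.ker := by
    unfold RelSubgroup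
    rw [AddSubgroup.closure_le]
    rintro x ⟨g, h, k, h1, h2, h3, h4, rfl⟩
    show psi _ = 0
    rw [map_sub, map_sub, map_add, psi_single, psi_single, psi_single, psi_single]
    exact check g h k h1 h2 h3 h4
  exact hle hz

open Classical in
/-- basis vector of a pair (zero if the pair is not in the set) -/
noncomputable def x' (t : Sym2 (ZMod 12)) : SS →₀ ℤ :=
  if h : t ∈ SS then Finsupp.single ⟨t, h⟩ 1 else 0

noncomputable def x (a b : ZMod 12) : SS →₀ ℤ := x' s(a, b)

lemma x_symm (a b : ZMod 12) : x a b = x b a := by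
  unfold x
  rw [Sym2.eq_swap]

lemma x_mem {a b : ZMod 12} (h : M a b = true) : x a b = Finsupp.single ⟨s(a, b), h⟩ 1 := by
  unfold x x'
  rw [dif_pos ((mem_SS a b).2 h)]

lemma rel_mem (g h k p q : ZMod 12) (hp : h + k = p) (hq : g + h = q)
    (h1 : M h k = true) (h2 : M g p = true) (h3 : M g h = true) (h4 : M q k = true) :
    x h k + x g p - x g h - x q k ∈ RelSubgroup SS := by
  subst hp hq
  rw [x_mem h1, x_mem h2, x_mem h3, x_mem h4]
  exact AddSubgroup.subset_closure ⟨g, h, k, h1, h2, h3, h4, rfl⟩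

noncomputable def y : SS →₀ ℤ := x 1 9 - x 3 6 + x 3 10 - x 9 9

lemma two_y : 2 • y ∈ RelSubgroup SS := by
  have r1 := rel_mem 3 5 5 10 8 (by decide) (by decide) (by decide) (by decide) (by decide) (by decide)
  have r2 := rel_mem 3 6 11 5 9 (by decide) (by decide) (by decide) (by decide) (by decide) (by decide)
  have r3 := rel_mem 4 3 10 1 7 (by decide) (by decide) (by decide) (by decide) (by decide) (by decide)
  have r4 := rel_mem 4 3 6 9 7 (by decide) (by decide) (by decide) (by decide) (by decide) (by decide)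
  have r5 := rel_mem 9 4 5 9 1 (by decide) (by decide) (by decide) (by decide) (by decide) (by decide)
  have r6 := rel_mem 9 9 2 11 6 (by decide) (by decide) (by decide) (by decide) (by decide) (by decide)
  have r7 := rel_mem 10 2 5 7 0 (by decide) (by decide) (by decide) (by decide) (by decide) (by decide)
  have r8 := rel_mem 5 1 11 0 6 (by decide) (by decide) (by decide) (by decide) (by decide) (by decide)
  have r9 := rel_mem 5 2 6 8 7 (by decide) (by decide) (by decide) (by decide) (by decide) (by decide)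
  have r10 := rel_mem 5 4 1 5 9 (by decide) (by decide) (by decide) (by decide) (by decide) (by decide)
  have r11 := rel_mem 2 9 1 10 11 (by decide) (by decide) (by decide) (by decide) (by decide) (by decide)
  have key : 2 • y =
      (x 5 5 + x 3 10 - x 3 5 - x 8 5) + (x 6 11 + x 3 5 - x 3 6 - x 9 11)
      + (x 3 10 + x 4 1 - x 4 3 - x 7 10) - (x 3 6 + x 4 9 - x 4 3 - x 7 6)
      - (x 4 5 + x 9 9 - x 9 4 - x 1 5) + (x 9 2 + x 9 11 - x 9 9 - x 6 2)
      + (x 2 5 + x 10 7 - x 10 2 - x 0 5) + (x 1 11 + x 5 0 - x 5 1 - x 6 11)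
      + (x 2 6 + x 5 8 - x 5 2 - x 7 6) - (x 4 1 + x 5 5 - x 5 4 - x 9 1)
      + (x 9 1 + x 2 10 - x 2 9 - x 11 1) := by
    unfold y
    rw [x_symm 8 5, x_symm 4 1, x_symm 4 3, x_symm 7 6, x_symm 9 4, x_symm 9 2, x_symm 6 2,
      x_symm 10 7, x_symm 10 2, x_symm 5 0, x_symm 5 1, x_symm 5 2, x_symm 5 4, x_symm 9 1,
      x_symm 11 1]
    abel
  rw [key]
  exact add_mem (sub_mem (add_mem (add_mem (add_mem (add_mem (sub_mem (sub_mem (add_mem (add_mem
    r1 r2) r3) r4) r5) r6) r7) r8) r9) r10) r11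

lemma y_not_mem : y ∉ RelSubgroup SS := by
  intro h
  have h1 := psi_rel y h
  have h2 : psi y = 1 := by
    unfold y
    rw [map_sub, map_add, map_sub, x_mem (by decide : M 1 9 = true),
      x_mem (by decide : M 3 6 = true), x_mem (by decide : M 3 10 = true),
      x_mem (by decide : M 9 9 = true), psi_single, psi_single, psi_single, psi_single]
    show w2 1 9 - w2 3 6 + w2 3 10 - w2 9 9 = 1
    decide
  rw [h2] at h1
  exact absurd h1 (by decide)

/-- There are a finite abelian group `G` (cyclic of order 12) and a set `S` of unordered pairs of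
elements of `G` such that `F_S / ⟨R_S⟩` has an element of order two; in particular this quotient
is not free abelian. -/
theorem result :
    ∃ (G : Type) (_ : AddCommGroup G) (_ : Finite G) (S : Set (Sym2 G)),
      (∃ z : (S →₀ ℤ) ⧸ RelSubgroup S, z ≠ 0 ∧ 2 • z = 0) ∧
        ¬ Module.Free ℤ ((S →₀ ℤ) ⧸ RelSubgroup S) := by
  refine ⟨ZMod 12, inferInstance, inferInstance, SS, ?_⟩
  have hz : ∃ z : (SS →₀ ℤ) ⧸ RelSubgroup SS, z ≠ 0 ∧ 2 • z = 0 := by
    refine ⟨(y : (SS →₀ ℤ) ⧸ RelSubgroup SS), ?_, ?_⟩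
    · intro h
      exact y_not_mem ((QuotientAddGroup.eq_zero_iff y).1 h)
    · have : ((2 • y : SS →₀ ℤ) : (SS →₀ ℤ) ⧸ RelSubgroup SS) = 0 :=
        (QuotientAddGroup.eq_zero_iff _).2 two_y
      exact this
  refine ⟨hz, ?_⟩
  intro hfree
  obtain ⟨z, hz1, hz2⟩ := hz
  have h3 : (2 : ℤ) • z = 0 := by
    rw [← hz2]
    exact ofNat_zsmul z 2
  have := (smul_eq_zero (M := (SS →₀ ℤ) ⧸ RelSubgroup SS)).1 h3
  rcases this with h | h
  · exact absurd h (by norm_num)
  · exact hz1 h

end Pool.Agent.Results.MP_7c4268_al.TorsionQuotient
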